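import Mathlib
import Pool.Agent.Run7.h28.BV.Spec3
import Pool.Agent.Run7.h28.BV.UNear

/-!
# Integral points above sparse points over all number fields of bounded discriminant

Vojta's conjecture for algebraic points, with `D` the boundary of an affine variety `V = X \ D` of log
general type, says that off a proper closed subset the height of an `S`-integral point of `V` of
bounded degree is bounded in terms of the discriminant of its field of definition.  We prove a weak
form of this for the integral points, of all degrees, of ALL affine varieties `V` whose image `x (P)`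
under a system of `n` regular functions is a sum of `k` `S`-units of the field `L` of definition, near
a point or a direction at infinity over which the other coordinates are unramified, at one place of
`L`: the special set `Z` is the union of finitely many subvarieties of `V` which are dominated by
images of the multiplicative group, it does not depend on `S` and on `L`, and for each `S` there is a
function `φ` such that for all number fields `L` the integral points of `V` over `L` of this kind and
off `Z` have `H (x) ≤ φ (|disc L|)`.  If there are no nonconstant maps from the multiplicative group to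
`V`, then `Z` is empty.  The result is uniform and holds in families.
-/

open Height NumberField IsDedekindDomain

namespace Pool.Agent.Results.MP_651af7_nt.IntegralPointsAllFields

/-- The places of a number field, infinite or finite. -/
abbrev Place (K : Type) [Field K] [NumberField K] : Type :=
  InfinitePlace K ⊕ HeightOneSpectrum (𝓞 K)

/-- The absolute value of a place, as normalised in Mathlib. -/
noncomputable def absv {K : Type} [Field K] [NumberField K] : Place K → AbsoluteValue K ℝ
  | Sum.inl w => w.1
  | Sum.inr v => (FinitePlace.mk v).1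

/-- The polynomial `F (x, y_i)` in the coordinates `x_l` and `y_i`. -/
noncomputable def eqn {A : Type} [CommRing A] {n m : ℕ} (F : Polynomial (MvPolynomial (Fin n) A))
    (i : Fin m) : MvPolynomial (Fin n ⊕ Fin m) A :=
  F.eval₂ (MvPolynomial.rename Sum.inl :
    MvPolynomial (Fin n) A →ₐ[A] MvPolynomial (Fin n ⊕ Fin m) A).toRingHom
    (MvPolynomial.X (Sum.inr i))

/-- The polynomial `F (x, Y)` over `K`; the coefficients in `A` are specialised by `s : A → K`. -/
noncomputable def specialise {A K : Type} [CommRing A] [Field K] {n : ℕ} (s : A →+* K)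
    (x : Fin n → K) (F : Polynomial (MvPolynomial (Fin n) A)) : Polynomial K :=
  F.map (MvPolynomial.eval₂Hom s x)

/-- The affine variety over `Spec A` with the ideal `I` is dominated by images of the multiplicative
group: over a field `L` which is an `A`-algebra there is a nonconstant morphism `p` from the
multiplicative group to the variety, given by Laurent polynomials, such that the point `p (1)` is
generic: all polynomials over `A` which vanish at it lie in `I`. -/
def DominatedByGm {A σ : Type} [CommRing A] (I : Ideal (MvPolynomial σ A)) : Prop :=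
  ∃ (L : Type) (_ : Field L) (_ : Algebra A L) (p : σ → LaurentPolynomial L),
    (∀ F ∈ I, MvPolynomial.aeval p F = 0) ∧
    (∀ G : MvPolynomial σ A, G ∉ I →
      MvPolynomial.aeval (fun i => LaurentPolynomial.eval₂ (RingHom.id L) 1 (p i)) G ≠ 0) ∧
    ∃ i, ¬ ∃ a, p i = LaurentPolynomial.C a

section

variable {K : Type} [Field K] [NumberField K]

/-- `x` is a sum of `k` elements of `Γ` with coefficients in `K` of height at most `M`. -/
def IsSparse (Γ : Subgroup Kˣ) (k : ℕ) (M : ℝ) (x : K) : Prop :=
  ∃ (a : Fin k → K) (u : Fin k → Kˣ), (∀ r, mulHeight₁ (a r) ≤ M) ∧ (∀ r, u r ∈ Γ) ∧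
    x = ∑ r, a r * (u r : K)

/-- After scaling, the polynomial `F` is `v`-adically close to a separable and split polynomial `E`
of degree `q` with coefficients of height at most `M`: there are `a, z ∈ Γ` of height at most
`M h ^ B` such that the coefficients of `a F (z Y) - E (Y)` of index at most `q` are at most
`M h ^ (-δ)` at `v`.  See `near_of_close` and `near_of_direction` for the main examples. -/
def IsNearSplit (Γ : Subgroup Kˣ) (v : Place K) (B δ M h : ℝ) (q : ℕ) (F : Polynomial K) : Prop :=
  ∃ (a z : Kˣ) (E : Polynomial K), a ∈ Γ ∧ z ∈ Γ ∧ E.natDegree = q ∧ E.Separable ∧ E.Splits ∧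
    (∀ j, mulHeight₁ (E.coeff j) ≤ M) ∧ mulHeight₁ (a : K) ≤ M * h ^ B ∧
    mulHeight₁ (z : K) ≤ M * h ^ B ∧
    ∀ j ≤ q, absv v ((a : K) * (z : K) ^ j * F.coeff j - E.coeff j) ≤ M * h ^ (-δ)

end

lemma absv_eq {K : Type} [Field K] [NumberField K] (v : Place K) :
    absv v = Pool.Agent.W180.OP.av v := by
  cases v with
  | inl w => rfl
  | inr w => rfl

lemma near_iff {K : Type} [Field K] [NumberField K] (Γ : Subgroup Kˣ) (v : Place K)
    (B δ M h : ℝ) (q : ℕ) (F : Polynomial K) :
    IsNearSplit Γ v B δ M h q F ↔ Pool.Agent.Run7.h28.BV.Near Γ v B δ M h q F := by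
  unfold IsNearSplit Pool.Agent.Run7.h28.BV.Near
  rw [absv_eq]

/-- First example: the point `x` is `v`-adically close to a point `c` with coordinates of height at
most `M` at which `F (c, Y)` has full degree and is separable and split over `K`. -/
theorem near_of_close {A : Type} [CommRing A] {n : ℕ} (F : Polynomial (MvPolynomial (Fin n) A))
    (K : Type) [Field K] [NumberField K] : ∃ C : ℝ, 1 ≤ C ∧
      ∀ (Γ : Subgroup Kˣ) (v : Place K) (B δ M h : ℝ) (s : A →+* K) (x c : Fin n → K), 0 ≤ B →
        0 ≤ δ → 1 ≤ M → 1 ≤ h → (∀ j e, mulHeight₁ (s ((F.coeff j).coeff e)) ≤ M) →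
        (∀ l, mulHeight₁ (c l) ≤ M) → (∀ l, absv v (x l - c l) ≤ M * h ^ (-δ)) →
        (specialise s c F).natDegree = F.natDegree → (specialise s c F).Separable →
        (specialise s c F).Splits →
        IsNearSplit Γ v B δ ((C * M) ^ C) h F.natDegree (specialise s x F) := by
  obtain ⟨C, hC, h⟩ := Pool.Agent.Run7.h28.BV.near_of_close F K
  refine ⟨C, hC, fun Γ v B δ M h' s x c h1 h2 h3 h4 h5 h6 h7 h8 h9 h10 => ?_⟩
  rw [near_iff]
  rw [absv_eq] at h7
  exact h Γ v B δ M h' s x c h1 h2 h3 h4 h5 h6 h7 h8 h9 h10

/-- The part of `F` of weight `q D + p q` at the point `(c, Y)`, where the variables `x_l` have weight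
`q` and `Y` has weight `p`. -/
noncomputable def topPart {A K : Type} [CommRing A] [Field K] {n : ℕ} (p q D : ℕ) (s : A →+* K)
    (F : Polynomial (MvPolynomial (Fin n) A)) (c : Fin n → K) : Polynomial K :=
  ∑ j ∈ Finset.range (q + 1),
    Polynomial.C (∑ e ∈ (F.coeff j).support with q * ∑ l, e l = q * D + p * (q - j),
      s ((F.coeff j).coeff e) * ∏ l, c l ^ e l) * Polynomial.X ^ j

/-- Second example: the point `x` is `v`-adically close to the direction `c` at infinity, that is,
`x` is close to `c w ^ q` for a `v`-adically large element `w` of `Γ`, all terms of `F` have weight at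
most `q D + p q`, and the part of this weight at `(c, Y)` has degree `q` and is separable and split
over `K`. -/
theorem near_of_direction {A : Type} [CommRing A] {n : ℕ}
    (F : Polynomial (MvPolynomial (Fin n) A)) (q p D : ℕ) (hq : 0 < q)
    (hw : ∀ j ≤ q, ∀ e, (F.coeff j).coeff e ≠ 0 → q * ∑ l, e l ≤ q * D + p * (q - j))
    (K : Type) [Field K] [NumberField K] : ∃ C : ℝ, 1 ≤ C ∧
      ∀ (Γ : Subgroup Kˣ) (v : Place K) (B δ M h : ℝ) (s : A →+* K) (x c : Fin n → K) (w : Kˣ),
        0 ≤ B → 0 ≤ δ → 1 ≤ M → 1 ≤ h → (∀ j e, mulHeight₁ (s ((F.coeff j).coeff e)) ≤ M) →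
        (∀ l, mulHeight₁ (c l) ≤ M) → w ∈ Γ → mulHeight₁ (w : K) ≤ M * h ^ B →
        absv v ((w : K)⁻¹) ≤ M * h ^ (-δ) →
        (∀ l, absv v (x l / (w : K) ^ q - c l) ≤ M * h ^ (-δ)) →
        (topPart p q D s F c).natDegree = q → (topPart p q D s F c).Separable →
        (topPart p q D s F c).Splits →
        IsNearSplit Γ v (B * (q * D + p * q)) δ ((C * M) ^ C) h q (specialise s x F) := by
  obtain ⟨C, hC, h⟩ := Pool.Agent.Run7.h28.BV.near_of_direction F q p D hq hw K
  refine ⟨C, hC, fun Γ v B δ M h' s x c w h1 h2 h3 h4 h5 h6 h7 h8 h9 h10 h11 h12 h13 => ?_⟩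
  rw [near_iff]
  rw [absv_eq] at h9 h10
  exact h Γ v B δ M h' s x c w h1 h2 h3 h4 h5 h6 h7 h8 h9 h10 h11 h12 h13

/-- The finite places of `L` above the positive integers in `S`. -/
def primesAbove (L : Type) [Field L] [NumberField L] (S : Finset ℕ) :
    Set (HeightOneSpectrum (𝓞 L)) :=
  {w | ∃ p ∈ S, p ≠ 0 ∧ ((p : ℕ) : 𝓞 L) ∈ w.asIdeal}

/-- The infinite places of `L` and the finite ones above `S`. -/
def placesAbove (L : Type) [Field L] [NumberField L] (S : Finset ℕ) : Set (Place L) :=
  {v | ∀ w, v = Sum.inr w → w ∈ primesAbove L S}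

lemma finite_placesAbove (L : Type) [Field L] [NumberField L] (S : Finset ℕ) :
    (placesAbove L S).Finite := by
  have h1 : placesAbove L S ⊆ Set.range (Sum.inl : InfinitePlace L → Place L) ∪
      Sum.inr '' primesAbove L S := by
    rintro (w | w) hw
    · exact Or.inl ⟨w, rfl⟩
    · exact Or.inr ⟨w, hw w rfl, rfl⟩
  exact ((Set.finite_range _).union
    ((Pool.Agent.Run7.h28.BV.finite_prAbove L S).image _)).subset h1

/-- Let `A` be a finitely generated `ℚ`-algebra with generators `τ`, `n, m, k` natural numbers, `B` and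
`δ > 0` real numbers.

Let `V` be a family over `Spec A` of affine schemes with the coordinates `x_1, …, x_n`,
`y_1, …, y_m`, given by an ideal `I`, such that each `y_i` satisfies an equation `F_i (x, y_i) = 0` of
positive degree in `y_i` on `V`, not necessarily monic.  Then there are finitely many closed
subvarieties `Q` of `V` which are dominated by images of the multiplicative group, with the following
property.

For every finite set `S` of primes and every `D` there is a constant `C` such that for all number
fields `L ⊆ ℂ` with `|disc L| ≤ D`, all places `v` of `L` which are infinite or above `S`, all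
`M ≥ 1`, all homomorphisms `s : A → L` with `H (s (τ_i)) ≤ M`, and all points `P = (x, y)` of
`V_s (L)` for which
* each `x_l` is a sum of `k` `S`-units of `L` with coefficients in `L` of height at most `M`,
* each `b_i y_i` is `S`-integral for some `b_i ≠ 0` in `L` of height at most `M`,
* the polynomials `F_i (x, Y)` are, after scaling by `S`-units, `v`-adically at distance at most
  `M H ^ (-δ)` from separable split polynomials over `L` with coefficients of height at most `M`,
  where `H` is the product of the heights of the `x_l`,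
the point `P` lies on one of the subvarieties `Q_s`, or `H (x_l) ≤ (C M) ^ C` for all `l`. -/
theorem result {A : Type} [CommRing A] [Algebra ℚ A] {p : ℕ} (τ : Fin p → A)
    (hτ : Algebra.adjoin ℚ (Set.range τ) = ⊤) (n m k : ℕ) (B δ : ℝ) (hδ : 0 < δ)
    (I : Ideal (MvPolynomial (Fin n ⊕ Fin m) A))
    (F : Fin m → Polynomial (MvPolynomial (Fin n) A)) (hq : ∀ i, 0 < (F i).natDegree)
    (hFI : ∀ i, eqn (F i) i ∈ I) :
    ∃ 𝒬 : Set (Ideal (MvPolynomial (Fin n ⊕ Fin m) A)), 𝒬.Finite ∧
      (∀ Q ∈ 𝒬, Q.IsPrime ∧ I ≤ Q ∧ DominatedByGm Q) ∧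
      ∀ (S : Finset ℕ) (D : ℕ), ∃ C : ℝ, 1 ≤ C ∧
      ∀ (L : IntermediateField ℚ ℂ) [NumberField L], |discr L| ≤ D → ∀ v ∈ placesAbove L S,
      ∀ (M : ℝ) (s : A →+* L) (x : Fin n → L) (y b : Fin m → L), 1 ≤ M →
        (∀ i, mulHeight₁ (s (τ i)) ≤ M) →
        (∀ P ∈ I, MvPolynomial.eval₂ s (Sum.elim x y) P = 0) →
        (∀ l, IsSparse ((primesAbove L S).unit L) k M (x l)) →
        (∀ i, b i ≠ 0 ∧ mulHeight₁ (b i) ≤ M ∧
          ∀ w, w ∉ primesAbove L S → absv (Sum.inr w : Place L) (b i * y i) ≤ 1) →
        (∀ i, IsNearSplit ((primesAbove L S).unit L) v B δ M (∏ l, mulHeight₁ (x l))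
          (F i).natDegree (specialise s x (F i))) →
        (∃ Q ∈ 𝒬, ∀ P ∈ Q, MvPolynomial.eval₂ s (Sum.elim x y) P = 0) ∨
          ∀ l, mulHeight₁ (x l) ≤ (C * M) ^ C := by
  obtain ⟨𝒬, h1, h2, h⟩ := Pool.Agent.Run7.h28.BV.specialT τ hτ n m k B δ hδ I F hq hFI
  refine ⟨𝒬, h1, fun Q hQ => ⟨(h2 Q hQ).1, (h2 Q hQ).2.1, (h2 Q hQ).2.2⟩, fun S D => ?_⟩
  exact Pool.Agent.Run7.h28.BV.uniform_disc D (fun L _ => Place L)
    (fun L _ => placesAbove L S) (fun L _ => finite_placesAbove L S)
    (fun L _ v C => ∀ (M : ℝ) (s : A →+* L) (x : Fin n → L) (y b : Fin m → L), 1 ≤ M →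
        (∀ i, mulHeight₁ (s (τ i)) ≤ M) →
        (∀ P ∈ I, MvPolynomial.eval₂ s (Sum.elim x y) P = 0) →
        (∀ l, IsSparse ((primesAbove L S).unit L) k M (x l)) →
        (∀ i, b i ≠ 0 ∧ mulHeight₁ (b i) ≤ M ∧
          ∀ w, w ∉ primesAbove L S → absv (Sum.inr w : Place L) (b i * y i) ≤ 1) →
        (∀ i, IsNearSplit ((primesAbove L S).unit L) v B δ M (∏ l, mulHeight₁ (x l))
          (F i).natDegree (specialise s x (F i))) →
        (∃ Q ∈ 𝒬, ∀ P ∈ Q, MvPolynomial.eval₂ s (Sum.elim x y) P = 0) ∨
          ∀ l, mulHeight₁ (x l) ≤ (C * M) ^ C)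
    (fun L _ v C C' h1 h2 h3 h4 M s x y b a1 a2 a4 a5 a6 a7 =>
      (h4 M s x y b a1 a2 a4 a5 a6 a7).imp_right
        (fun h5 l => Pool.Agent.Run7.h28.BV.bound_mono h1 h2 h3 a1 (h5 l)))
    (fun L _ v _ => by
      have hfin := Pool.Agent.Run7.h28.BV.finite_prAbove L S
      obtain ⟨C, hC, h⟩ := h L ((primesAbove L S).unit L)
        (Pool.Agent.H39R3.Tor.sunit_fg L _ hfin) v hfin.toFinset
      refine ⟨C, by linarith, fun M s x y b h1 h2 h4 h5 h6 h7 =>
        h M s x y b h1 h2 h4 h5 (fun i => ⟨(h6 i).1, (h6 i).2.1, fun w hw => ?_⟩)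
          fun i => (near_iff _ _ _ _ _ _ _ _).1 (h7 i)⟩
      have h8 := (h6 i).2.2 w (fun h9 => hw (hfin.mem_toFinset.2 h9))
      rw [absv_eq] at h8
      exact h8)

/-- If there is no nonconstant map from the multiplicative group to the family `V`, then the special
set is empty: a prime ideal containing `I` which is dominated by images of the multiplicative group
gives such a map over a field. -/
theorem curve_of_dominated {A σ : Type} [CommRing A] {I Q : Ideal (MvPolynomial σ A)}
    (hIQ : I ≤ Q) (hQ : DominatedByGm Q) : ∃ (L : Type) (_ : Field L) (_ : Algebra A L)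
      (p : σ → LaurentPolynomial L), (∀ F ∈ I, MvPolynomial.aeval p F = 0) ∧
      ∃ i, ¬ ∃ a, p i = LaurentPolynomial.C a := by
  obtain ⟨L, i1, i2, p, h1, -, h3⟩ := hQ
  exact ⟨L, i1, i2, p, fun F hF => h1 F (hIQ hF), h3⟩

end Pool.Agent.Results.MP_651af7_nt.IntegralPointsAllFields
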