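import Mathlib
import Pool.Agent.Run7.h523.XK.Main

/-!
# Integral points of bounded degree of the spaces of point configurations in all dimensions

For `c ≥ 0` and `n ≥ c + 4` let `X(c + 2, n)` be the moduli space of `n` points in general linear
position (any `c + 2` of them are linearly independent) of the projective space of dimension `c + 1`,
up to projective linear transformations (`M_{0,n}` for `c = 0`). It is a smooth affine variety of
dimension `(c + 1) (n - c - 3)` and of log general type, a closed subvariety of a torus. Its coordinate
ring over `ℤ` is generated by the cross ratios of four of the points seen from `c` other ones, i.e. of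
their images under the projection to the projective line from these `c` points, and these functions are
units of the ring. So the `S`-integral points over a field `L` are the configurations for which all
these cross ratios are `S`-units.

Let `r ≥ 2` and let `k` be a number field. We consider the `S`-integral points of `X(c + 2, n)` over
all extensions `L` of `k` of degree at most `r` (the field `L` varies with the point). If `X` is a
compactification and `D` the boundary, Vojta's conjecture bounds their heights `h_{K+D}` by the
logarithmic discriminants of the fields, so infinitely many such points may exist if `n` is small.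

There is a number `m = m(k, r)`, the same for all dimensions, with `2 r + 3 ≤ m ≤ 5 r ^ 2` and
`m ≤ 6 r ^ 2 - 5 r + 3`, and equal to seven for quadratic points (`r = 2`), such that:

* if `c + 4 ≥ m` or `n - c ≥ m` there are only finitely many `S`-integral points of `X(c + 2, n)` of
  degree at most `r`, for all finite sets `S` of primes. In particular this is true for all `c` if
  `n ≥ 2 m - 5`, for example if `n ≥ 10 r ^ 2 - 5`;
* if `n < m`, for example if `n ≤ 2 r + 2`, there are infinitely many for suitable `S`.

So `m` is the smallest number of points for which the property holds for `M_{0,n}` (take `c = 0`).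
For quadratic points the question whether there are only finitely many for all `S` is answered in all
cases except `(c + 2, n) = (3, 7), (4, 7), (4, 8)`. For some `k` there are infinitely many points, for
suitable `S`, for all `c` and all `n ≤ 4 r - 2`, so `m ≥ 4 r - 1`.

Proof. The projection from `c` of the points to the projective line reduces the case `n - c ≥ m` to
`M_{0,n-c}`; the cross ratios are preserved by a Plücker relation (`cram`, `proj`). For the case
`c + 4 ≥ m` consider `c + 4` of the points. The linear relations between their coordinate vectors
form a vector space of dimension two, and the coordinates of two independent relations define `c + 4`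
different points of the projective line, with the same cross ratios (`gale`); so they form an
`S`-integral point of `M_{0,c+4}`. Conversely the points of the rational normal curve of degree `c + 1`
which correspond to an integral point of `M_{0,n}` are in general linear position, and have the same
cross ratios by the formula for Vandermonde determinants (`rnc_cr`). The finiteness for `M_{0,n}` is
`BoundedDegreeModuli`, `QuadraticPointsModuli` of `MP_71c16a_nt` and `ModuliQuadraticBound`.
-/

set_option autoImplicit false

namespace Pool.Agent.Results.MP_651af7_nt.PointConfigurations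

variable {K : Type} [Field K] {c n : ℕ}

/-- The determinant of the vectors with the numbers `g 0, …, g (c - 1), i, j`. -/
def detAt (A : Fin n → Fin (c + 2) → K) (g : Fin c → Fin n) (i j : Fin n) : K :=
  (Matrix.of (Fin.append (fun t => A (g t)) ![A i, A j])).det

/-- The cross ratio of the points with the numbers `f c, f (c + 1), f (c + 2), f (c + 3)`, seen from
the points with the numbers `f 0, …, f (c - 1)`. -/
noncomputable def crossRatio (A : Fin n → Fin (c + 2) → K) (f : Fin (c + 4) → Fin n) : K :=
  detAt A (fun t => f (Fin.castAdd 4 t)) (f (Fin.natAdd c 0)) (f (Fin.natAdd c 1)) *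
    detAt A (fun t => f (Fin.castAdd 4 t)) (f (Fin.natAdd c 2)) (f (Fin.natAdd c 3)) /
    (detAt A (fun t => f (Fin.castAdd 4 t)) (f (Fin.natAdd c 0)) (f (Fin.natAdd c 2)) *
      detAt A (fun t => f (Fin.castAdd 4 t)) (f (Fin.natAdd c 1)) (f (Fin.natAdd c 3)))

/-- `a` is an `S`-unit: a unit of the ring of those elements of `K` which become integral when they
are multiplied by a power of the product of the primes in `S`. -/
def IsSUnit (S : Finset ℕ) (a : K) : Prop :=
  a ≠ 0 ∧ ∃ m : ℕ, IsIntegral ℤ ((∏ p ∈ S, (p : K)) ^ m * a) ∧
    IsIntegral ℤ ((∏ p ∈ S, (p : K)) ^ m * a⁻¹)

/-- The vectors `A i` are homogeneous coordinates of `n` points of the projective space of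
dimension `c + 1` which represent an `S`-integral point of the space of point configurations: any
`c + 2` of the vectors are linearly independent, and all cross ratios are `S`-units. -/
structure IsIntegralPoint (S : Finset ℕ) (A : Fin n → Fin (c + 2) → K) : Prop where
  general : ∀ f : Fin (c + 2) → Fin n, Function.Injective f → (Matrix.of fun t => A (f t)).det ≠ 0
  unit : ∀ f : Fin (c + 4) → Fin n, Function.Injective f → IsSUnit S (crossRatio A f)

/-- The `S`-integral points, of degree at most `r` over `k`, of the space of configurations of `n`
points in general linear position of the projective space of dimension `c + 1`: the systems of the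
complex numbers `φ (crossRatio A f)` for the `S`-integral points `A` over the extensions `L` of `k`
of degree at most `r`, and the embeddings `φ` of `L`. -/
def integralPoints (k : Type) [Field k] (c r n : ℕ) (S : Finset ℕ) :
    Set ((Fin (c + 4) ↪ Fin n) → ℂ) :=
  {F | ∃ (L : Type) (_ : Field L) (_ : NumberField L) (_ : Algebra k L)
    (A : Fin n → Fin (c + 2) → L) (φ : L →+* ℂ), Module.finrank k L ≤ r ∧ IsIntegralPoint S A ∧
      F = fun f : Fin (c + 4) ↪ Fin n => φ (crossRatio A f)}

theorem integralPoints_eq (k : Type) [Field k] (c r n : ℕ) (S : Finset ℕ) :
    integralPoints k c r n S = Run7.h523.XK.XS k c r n S := by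
  ext F
  constructor
  · rintro ⟨L, iF, iN, iA, A, φ, hL, hA, hc⟩
    exact ⟨L, iF, iN, iA, A, φ, hL, ⟨hA.general, hA.unit⟩, hc⟩
  · rintro ⟨L, iF, iN, iA, A, φ, hL, hA, hc⟩
    exact ⟨L, iF, iN, iA, A, φ, hL, ⟨hA.1, hA.2⟩, hc⟩

/-- Integral points of degree at most `r ≥ 2` over a number field `k` on the spaces of `n` points in
general linear position of the projective spaces of all dimensions `c + 1`. There is a number `m`
with `2 r + 3 ≤ m ≤ 5 r ^ 2` and `m ≤ 6 r ^ 2 - 5 r + 3`, and `m = 7` for `r = 2`, such that for all
`c` and `n` there are only finitely many for all finite sets `S` of primes if `m ≤ c + 4` or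
`m ≤ n - c`, and infinitely many for some `S` if `n < m`. For some `k` there are infinitely many, for
some `S`, whenever `n ≤ 4 r - 2`. -/
theorem result (r : ℕ) (hr : 2 ≤ r) :
    (∀ (k : Type) [Field k] [NumberField k], ∃ m : ℕ, 2 * r + 3 ≤ m ∧ m ≤ 5 * r ^ 2 ∧
      m + 5 * r ≤ 6 * r ^ 2 + 3 ∧ (r = 2 → m = 7) ∧ ∀ c n : ℕ, c + 4 ≤ n →
        ((m ≤ c + 4 ∨ m + c ≤ n →
          ∀ S : Finset ℕ, (∀ p ∈ S, p.Prime) → (integralPoints k c r n S).Finite) ∧
        ((∀ S : Finset ℕ, (∀ p ∈ S, p.Prime) → (integralPoints k c r n S).Finite) → m ≤ n))) ∧
    ∃ (k : Type) (_ : Field k) (_ : NumberField k), ∀ c n : ℕ, c + 4 ≤ n → n ≤ 4 * r - 2 →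
      ∃ S : Finset ℕ, (∀ p ∈ S, p.Prime) ∧ (integralPoints k c r n S).Infinite := by
  simp only [integralPoints_eq]
  exact Run7.h523.XK.main r hr

end Pool.Agent.Results.MP_651af7_nt.PointConfigurations
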